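import Mathlib

/-!
# A lattice in `ℂ` is determined by `g₂` and `g₃`  (job 322, helper696)
-/

namespace Pool.Agent.Y577.LU

open Filter Topology PeriodPair

lemma wp_eq (L : PeriodPair) (z : ℂ) : L.weierstrassP z = L.weierstrassPExcept 0 z + 1 / z ^ 2 := by
  have h := L.weierstrassPExcept_add (0 : L.lattice) z
  rw [← h]
  simp

lemma dwp_eq (L : PeriodPair) (z : ℂ) :
    L.derivWeierstrassP z = L.derivWeierstrassPExcept 0 z - 2 / z ^ 3 := by
  have h := L.derivWeierstrassPExcept_sub (0 : L.lattice) z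
  rw [← h]
  simp

lemma ev_notMem (L : PeriodPair) (x : ℂ) : ∀ᶠ z in 𝓝[≠] x, z ∉ L.lattice := by
  have h := L.compl_lattice_sdiff_singleton_mem_nhds x
  have h2 : ∀ᶠ z in 𝓝[≠] x, z ∈ ((↑L.lattice \ {x} : Set ℂ))ᶜ := mem_nhdsWithin_of_mem_nhds h
  filter_upwards [h2, self_mem_nhdsWithin] with z hz hz2 hz3
  exact hz ⟨hz3, hz2⟩

/-- the differential identity -/
lemma diff_id (L M : PeriodPair) (h2 : L.g₂ = M.g₂) (h3 : L.g₃ = M.g₃) {z : ℂ}
    (hz0 : z ≠ 0) (hL : z ∉ L.lattice) (hM : z ∉ M.lattice) :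
    (z ^ 3 * (L.derivWeierstrassPExcept 0 z + M.derivWeierstrassPExcept 0 z) - 4) *
      (z * (L.derivWeierstrassPExcept 0 z - M.derivWeierstrassPExcept 0 z)) =
    (4 * ((z ^ 2 * L.weierstrassPExcept 0 z + 1) ^ 2 +
      (z ^ 2 * L.weierstrassPExcept 0 z + 1) * (z ^ 2 * M.weierstrassPExcept 0 z + 1) +
      (z ^ 2 * M.weierstrassPExcept 0 z + 1) ^ 2) - M.g₂ * z ^ 4) *
      (L.weierstrassPExcept 0 z - M.weierstrassPExcept 0 z) := by
  have e1 := L.derivWeierstrassP_sq z hL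
  have e2 := M.derivWeierstrassP_sq z hM
  rw [h2, h3] at e1
  rw [wp_eq, dwp_eq] at e1 e2
  have key := congrArg₂ (fun a b => z ^ 4 * (a - b)) e1 e2
  set p := L.weierstrassPExcept 0 z
  set q := M.weierstrassPExcept 0 z
  set dp := L.derivWeierstrassPExcept 0 z
  set dq := M.derivWeierstrassPExcept 0 z
  have a1 : z ^ 4 * ((dp - 2 / z ^ 3) ^ 2 - (dq - 2 / z ^ 3) ^ 2) =
      (z ^ 3 * (dp + dq) - 4) * (z * (dp - dq)) := by
    field_simp
    ring
  have a2 : z ^ 4 * ((4 * (p + 1 / z ^ 2) ^ 3 - M.g₂ * (p + 1 / z ^ 2) - M.g₃) -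
      (4 * (q + 1 / z ^ 2) ^ 3 - M.g₂ * (q + 1 / z ^ 2) - M.g₃)) =
      (4 * ((z ^ 2 * p + 1) ^ 2 + (z ^ 2 * p + 1) * (z ^ 2 * q + 1) + (z ^ 2 * q + 1) ^ 2)
        - M.g₂ * z ^ 4) * (p - q) := by
    field_simp
    ring
  rw [a1, a2] at key
  exact key

lemma ev_eq (L M : PeriodPair) (h2 : L.g₂ = M.g₂) (h3 : L.g₃ = M.g₃) :
    ∀ᶠ z in 𝓝 (0 : ℂ), L.weierstrassPExcept 0 z - M.weierstrassPExcept 0 z = 0 := by
  by_contra hne
  have hp : AnalyticAt ℂ (L.weierstrassPExcept 0) 0 := L.analyticAt_weierstrassPExcept 0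
  have hq : AnalyticAt ℂ (M.weierstrassPExcept 0) 0 := M.analyticAt_weierstrassPExcept 0
  have hdp : AnalyticAt ℂ (L.derivWeierstrassPExcept 0) 0 := L.analyticAt_derivWeierstrassPExcept 0
  have hdq : AnalyticAt ℂ (M.derivWeierstrassPExcept 0) 0 := M.analyticAt_derivWeierstrassPExcept 0
  have hf : AnalyticAt ℂ (fun z => L.weierstrassPExcept 0 z - M.weierstrassPExcept 0 z) 0 :=
    hp.sub hq
  obtain ⟨n, g, hg, hg0, hfg⟩ := hf.exists_eventuallyEq_pow_smul_nonzero_iff.mpr hne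
  simp only [sub_zero, smul_eq_mul] at hfg
  -- `n ≥ 1`
  have hn : n ≠ 0 := by
    rintro rfl
    have := hfg.self_of_nhds
    simp at this
    exact hg0 this.symm
  -- the derivative
  have hd : ∀ᶠ z in 𝓝 (0 : ℂ), L.derivWeierstrassPExcept 0 z - M.derivWeierstrassPExcept 0 z =
      n * z ^ (n - 1) * g z + z ^ n * deriv g z := by
    have h1 : ∀ᶠ z in 𝓝 (0 : ℂ), (fun w => L.weierstrassPExcept 0 w - M.weierstrassPExcept 0 w)
        =ᶠ[𝓝 z] (fun w => w ^ n * g w) := hfg.eventually_nhds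
    have h2 : ∀ᶠ z in 𝓝 (0 : ℂ), DifferentiableAt ℂ g z :=
      hg.eventually_analyticAt.mono fun z hz => hz.differentiableAt
    have h3 : ∀ᶠ z in 𝓝 (0 : ℂ), z ∈ ((↑L.lattice \ {0} : Set ℂ))ᶜ :=
      L.compl_lattice_sdiff_singleton_mem_nhds 0
    have h4 : ∀ᶠ z in 𝓝 (0 : ℂ), z ∈ ((↑M.lattice \ {0} : Set ℂ))ᶜ :=
      M.compl_lattice_sdiff_singleton_mem_nhds 0
    have h5 : ∀ᶠ z in 𝓝 (0 : ℂ), DifferentiableAt ℂ (L.weierstrassPExcept 0) z :=
      hp.eventually_analyticAt.mono fun z hz => hz.differentiableAt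
    have h6 : ∀ᶠ z in 𝓝 (0 : ℂ), DifferentiableAt ℂ (M.weierstrassPExcept 0) z :=
      hq.eventually_analyticAt.mono fun z hz => hz.differentiableAt
    filter_upwards [h1, h2, h3, h4, h5, h6] with z k1 k2 k3 k4 k5 k6
    have e := k1.deriv_eq
    rw [deriv_fun_sub k5 k6, deriv_fun_mul (by fun_prop) k2,
      L.eqOn_deriv_weierstrassPExcept_derivWeierstrassPExcept 0 k3,
      M.eqOn_deriv_weierstrassPExcept_derivWeierstrassPExcept 0 k4] at e
    rw [e]
    simp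
  -- comparison
  have hcmp : ∀ᶠ z in 𝓝[≠] (0 : ℂ),
      (z ^ 3 * (L.derivWeierstrassPExcept 0 z + M.derivWeierstrassPExcept 0 z) - 4) *
      (n * g z + z * deriv g z) =
    (4 * ((z ^ 2 * L.weierstrassPExcept 0 z + 1) ^ 2 +
      (z ^ 2 * L.weierstrassPExcept 0 z + 1) * (z ^ 2 * M.weierstrassPExcept 0 z + 1) +
      (z ^ 2 * M.weierstrassPExcept 0 z + 1) ^ 2) - M.g₂ * z ^ 4) * g z := by
    filter_upwards [self_mem_nhdsWithin, ev_notMem L 0, ev_notMem M 0,
      mem_nhdsWithin_of_mem_nhds hd, mem_nhdsWithin_of_mem_nhds hfg] with z hz hL hM hd' hf'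
    have hz0 : z ≠ 0 := hz
    have key := diff_id L M h2 h3 hz0 hL hM

    rw [hd', hf'] at key
    have hzn : z ^ n ≠ 0 := pow_ne_zero _ hz0
    have e1 : z * (n * z ^ (n - 1) * g z + z ^ n * deriv g z) =
        z ^ n * (n * g z + z * deriv g z) := by
      obtain ⟨m, rfl⟩ : ∃ m, n = m + 1 := ⟨n - 1, by omega⟩
      simp only [Nat.add_sub_cancel]
      ring
    rw [e1] at key
    apply mul_left_cancel₀ hzn
    linear_combination key
  -- pass to the limit
  have hcg : ContinuousAt g 0 := hg.continuousAt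
  have hcdg : ContinuousAt (deriv g) 0 := hg.deriv.continuousAt
  have hcp : ContinuousAt (L.weierstrassPExcept 0) 0 := hp.continuousAt
  have hcq : ContinuousAt (M.weierstrassPExcept 0) 0 := hq.continuousAt
  have hcdp : ContinuousAt (L.derivWeierstrassPExcept 0) 0 := hdp.continuousAt
  have hcdq : ContinuousAt (M.derivWeierstrassPExcept 0) 0 := hdq.continuousAt
  have c1 : ContinuousAt (fun z : ℂ =>
      (z ^ 3 * (L.derivWeierstrassPExcept 0 z + M.derivWeierstrassPExcept 0 z) - 4) *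
      (n * g z + z * deriv g z)) 0 := by
    fun_prop
  have c2 : ContinuousAt (fun z : ℂ =>
      (4 * ((z ^ 2 * L.weierstrassPExcept 0 z + 1) ^ 2 +
      (z ^ 2 * L.weierstrassPExcept 0 z + 1) * (z ^ 2 * M.weierstrassPExcept 0 z + 1) +
      (z ^ 2 * M.weierstrassPExcept 0 z + 1) ^ 2) - M.g₂ * z ^ 4) * g z) 0 := by
    fun_prop
  have l1 := c1.tendsto.mono_left (nhdsWithin_le_nhds (s := {0}ᶜ))
  have l2 := c2.tendsto.mono_left (nhdsWithin_le_nhds (s := {0}ᶜ))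
  have l3 := tendsto_nhds_unique (l1.congr' hcmp) l2
  simp at l3
  have h5 : (-4 * (n : ℂ)) * g 0 = 12 * g 0 := by linear_combination l3
  have h6 := mul_right_cancel₀ hg0 h5
  have h7 : ((4 * n + 12 : ℕ) : ℂ) = 0 := by push_cast; linear_combination -h6
  have h8 := Nat.cast_eq_zero.mp h7
  omega

lemma le_of (L M : PeriodPair) (h2 : L.g₂ = M.g₂) (h3 : L.g₃ = M.g₃) :
    L.lattice ≤ M.lattice := by
  intro ω hω
  by_contra hM
  set U : Set ℂ := ((L.lattice : Set ℂ) ∪ (M.lattice : Set ℂ))ᶜ with hU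
  have hcount : ((L.lattice : Set ℂ) ∪ (M.lattice : Set ℂ)).Countable := by
    apply Set.Countable.union
    · exact Set.countable_coe_iff.mp (L.latticeEquivProd.toEquiv.countable_iff.mpr inferInstance)
    · exact Set.countable_coe_iff.mp (M.latticeEquivProd.toEquiv.countable_iff.mpr inferInstance)
  have hconn : IsPreconnected U := by
    apply (Set.Countable.isPathConnected_compl_of_one_lt_rank _ hcount).isConnected.isPreconnected
    simp [Complex.rank_real_complex]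
  have hdL : AnalyticOnNhd ℂ L.weierstrassP U :=
    L.analyticOnNhd_weierstrassP.mono (by intro z hz h; exact hz (Or.inl h))
  have hdM : AnalyticOnNhd ℂ M.weierstrassP U :=
    M.analyticOnNhd_weierstrassP.mono (by intro z hz h; exact hz (Or.inr h))
  have hopen : ∀ x : ℂ, ∀ᶠ z in 𝓝[≠] x, z ∈ U := by
    intro x
    filter_upwards [ev_notMem L x, ev_notMem M x] with z h1 h2 h3
    rcases h3 with h3 | h3
    · exact h1 h3
    · exact h2 h3
  -- a base point
  have hbase : ∃ z₀ ∈ U, L.weierstrassP =ᶠ[𝓝 z₀] M.weierstrassP := by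
    have h1 : ∀ᶠ z in 𝓝 (0 : ℂ), ∀ᶠ w in 𝓝 z,
        L.weierstrassPExcept 0 w - M.weierstrassPExcept 0 w = 0 :=
      (ev_eq L M h2 h3).eventually_nhds
    have h4 : ∀ᶠ z in 𝓝[≠] (0 : ℂ), ∀ᶠ w in 𝓝 z,
        L.weierstrassPExcept 0 w - M.weierstrassPExcept 0 w = 0 :=
      mem_nhdsWithin_of_mem_nhds h1
    obtain ⟨z, hz1, hz2⟩ := (h4.and (hopen 0)).exists
    refine ⟨z, hz2, ?_⟩
    filter_upwards [hz1] with w hw
    rw [wp_eq, wp_eq, sub_eq_zero.mp hw]
  obtain ⟨z₀, hz₀, hev⟩ := hbase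
  have hEq := hdL.eqOn_of_preconnected_of_eventuallyEq hdM hconn hz₀ hev
  have hpunct : L.weierstrassP =ᶠ[𝓝[≠] ω] M.weierstrassP := by
    filter_upwards [hopen ω] with z hz
    exact hEq hz
  have ho1 := L.order_weierstrassP ω hω
  have ho2 := (M.analyticOnNhd_weierstrassP ω hM).meromorphicOrderAt_nonneg
  rw [meromorphicOrderAt_congr hpunct] at ho1
  rw [ho1] at ho2
  exact absurd ho2 (by decide)

/-- A lattice is determined by its invariants `g₂` and `g₃`. -/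
theorem lat_unique (L M : PeriodPair) (h2 : L.g₂ = M.g₂) (h3 : L.g₃ = M.g₃) :
    L.lattice = M.lattice :=
  le_antisymm (le_of L M h2 h3) (le_of M L h2.symm h3.symm)

end Pool.Agent.Y577.LU
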